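import Pool.Agent.W2helper94.CY.Defs

/-!
# Squad CY (helper94), piece A1b: the semigroup is cofinite, normal forms are unique
-/

set_option autoImplicit false

namespace Pool.Agent.W2helper53.CY

open Polynomial Finset
open Pool.Agent.W2helper94.CY

theorem n1_pos (p : Par) : 0 < p.n1 := by
  have h1 : 0 < p.a2 := Nat.add_pos_left p.h32 _
  have h2 : 0 < p.a3 := Nat.add_pos_left p.h13 _
  exact Nat.add_pos_left (Nat.mul_pos (Nat.mul_pos h1 h2) p.h14) _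

theorem exists_bound (p : Par) (hg : Nat.gcd (Nat.gcd p.n1 p.n2) (Nat.gcd p.n3 p.n4) = 1) :
    ∃ B : ℕ, ∀ x ≥ B, x ∈ p.S := by
  obtain ⟨B, hB⟩ := Nat.exists_mem_closure_of_ge (s := ({p.n1, p.n2, p.n3, p.n4} : Set ℕ))
  refine ⟨B, fun x hx => hB x hx ?_⟩
  have h1 : ∀ y ∈ ({p.n1, p.n2, p.n3, p.n4} : Set ℕ),
      Nat.setGcd ({p.n1, p.n2, p.n3, p.n4} : Set ℕ) ∣ y := fun y hy => Nat.setGcd_dvd_of_mem hy
  have h2 : Nat.setGcd ({p.n1, p.n2, p.n3, p.n4} : Set ℕ) ∣ 1 := by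
    rw [← hg]
    exact Nat.dvd_gcd (Nat.dvd_gcd (h1 _ (by simp)) (h1 _ (by simp)))
      (Nat.dvd_gcd (h1 _ (by simp)) (h1 _ (by simp)))
  exact h2.trans (one_dvd _)

theorem cofinite (p : Par) (hg : Nat.gcd (Nat.gcd p.n1 p.n2) (Nat.gcd p.n3 p.n4) = 1) :
    ((p.S : Set ℕ)ᶜ).Finite := by
  obtain ⟨B, hB⟩ := exists_bound p hg
  refine (Set.finite_lt_nat B).subset ?_
  intro x hx
  show x < B
  by_contra h
  exact hx (hB x (not_lt.1 h))

theorem nf_inj (p : Par) (hcard : p.NF.card = p.n1)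
    (hred : ∀ γ : ℕ, γ ∈ p.S → ∃ q ∈ p.NF, ∃ k, γ = p.wt q + k * p.n1)
    (hg : Nat.gcd (Nat.gcd p.n1 p.n2) (Nat.gcd p.n3 p.n4) = 1)
    (q q' : ℕ × ℕ × ℕ) (hq : q ∈ p.NF) (hq' : q' ∈ p.NF) (k k' : ℕ)
    (h : p.wt q + k * p.n1 = p.wt q' + k' * p.n1) : q = q' ∧ k = k' := by
  classical
  have hn := n1_pos p
  have : NeZero p.n1 := ⟨hn.ne'⟩
  obtain ⟨B, hB⟩ := exists_bound p hg
  let f : p.NF → ZMod p.n1 := fun q => (p.wt q.1 : ZMod p.n1)
  have hsurj : Function.Surjective f := by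
    intro r
    have hmem : r.val + B * p.n1 ∈ p.S := hB _ (by nlinarith [Nat.zero_le r.val])
    obtain ⟨q0, hq0, k0, hk0⟩ := hred _ hmem
    refine ⟨⟨q0, hq0⟩, ?_⟩
    have h1 : ((r.val + B * p.n1 : ℕ) : ZMod p.n1) = ((p.wt q0 + k0 * p.n1 : ℕ) : ZMod p.n1) := by
      rw [hk0]
    push_cast at h1
    rw [ZMod.natCast_self, mul_zero, mul_zero, add_zero, add_zero, ZMod.natCast_zmod_val] at h1
    exact h1.symm
  have hc : Fintype.card p.NF = Fintype.card (ZMod p.n1) := by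
    rw [Fintype.card_coe, hcard, ZMod.card]
  have hinj : Function.Injective f :=
    ((Fintype.bijective_iff_surjective_and_card f).2 ⟨hsurj, hc⟩).1
  have h2 : q = q' := by
    have h3 : f ⟨q, hq⟩ = f ⟨q', hq'⟩ := by
      have h1 : ((p.wt q + k * p.n1 : ℕ) : ZMod p.n1) = ((p.wt q' + k' * p.n1 : ℕ) : ZMod p.n1) := by
        rw [h]
      push_cast at h1
      rw [ZMod.natCast_self, mul_zero, mul_zero, add_zero, add_zero] at h1
      exact h1
    exact congrArg Subtype.val (hinj h3)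
  refine ⟨h2, ?_⟩
  rw [h2] at h
  exact Nat.eq_of_mul_eq_mul_right hn (Nat.add_left_cancel h)

end Pool.Agent.W2helper53.CY
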