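import Mathlib

/-!
# Squad CY (helper94), piece A2: the semigroup polynomial
-/

set_option autoImplicit false

namespace Pool.Agent.W2helper53.CY

open Polynomial Finset

theorem gaps_identity {ι : Type} (S : Set ℕ) (hS : Sᶜ.Finite) (n : ℕ) (hn : 0 < n) (F : Finset ι)
    (w : ι → ℕ) (hmem : ∀ x, x ∈ S ↔ ∃ q ∈ F, ∃ k, x = w q + k * n)
    (hinj : ∀ q ∈ F, ∀ q' ∈ F, ∀ k k', w q + k * n = w q' + k' * n → q = q' ∧ k = k') :
    (1 - (1 - X) * ∑ x ∈ hS.toFinset, X ^ x : ℤ[X]) * (1 - X ^ n) =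
      (1 - X) * ∑ q ∈ F, X ^ w q := by
  classical
  apply Polynomial.coe_injective ℤ
  obtain ⟨G, hG⟩ : ∃ G : ℤ[X], G = ∑ x ∈ hS.toFinset, X ^ x := ⟨_, rfl⟩
  obtain ⟨W, hW⟩ : ∃ W : ℤ[X], W = ∑ q ∈ F, X ^ w q := ⟨_, rfl⟩
  rw [← hG, ← hW]
  obtain ⟨Sg, hSg⟩ : ∃ s : PowerSeries ℤ, s = PowerSeries.mk fun x => if x ∈ S then 1 else 0 :=
    ⟨_, rfl⟩
  have ha : Sg + (G : PowerSeries ℤ) = PowerSeries.mk 1 := by
    ext x
    rw [map_add, Polynomial.coeff_coe, hSg, PowerSeries.coeff_mk, PowerSeries.coeff_mk, hG,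
      Polynomial.finsetSum_coeff]
    simp only [Polynomial.coeff_X_pow, Pi.one_apply]
    rw [Finset.sum_ite_eq]
    by_cases hx : x ∈ S
    · rw [if_pos hx, if_neg (by simpa using hx), add_zero]
    · rw [if_neg hx, if_pos (by simpa using hx), zero_add]
  have hb : Sg * (1 - PowerSeries.X ^ n) = (W : PowerSeries ℤ) := by
    ext x
    rw [mul_sub, mul_one, map_sub, PowerSeries.coeff_mul_X_pow', Polynomial.coeff_coe, hSg,
      PowerSeries.coeff_mk, PowerSeries.coeff_mk, hW, Polynomial.finsetSum_coeff]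
    simp only [Polynomial.coeff_X_pow]
    have hno : (∃ q ∈ F, x = w q) → ¬ (n ≤ x ∧ x - n ∈ S) := by
      rintro ⟨q, hq, hx⟩ ⟨h1, h2⟩
      obtain ⟨q', hq', k, hk⟩ := (hmem _).1 h2
      have h3 : w q + 0 * n = w q' + (k + 1) * n := by
        rw [zero_mul, add_zero, ← hx]
        have : x = x - n + n := (Nat.sub_add_cancel h1).symm
        rw [this, hk]
        ring
      have := (hinj q hq q' hq' 0 (k + 1) h3).2
      omega
    by_cases hxw : ∃ q ∈ F, x = w q
    · have hxS : x ∈ S := by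
        obtain ⟨q, hq, hx⟩ := hxw
        exact (hmem x).2 ⟨q, hq, 0, by rw [zero_mul, add_zero, hx]⟩
      have h0 := hno hxw
      rw [if_pos hxS]
      have h1 : (if n ≤ x then (if x - n ∈ S then (1 : ℤ) else 0) else 0) = 0 := by
        split_ifs with a b
        · exact absurd ⟨a, b⟩ h0
        · rfl
        · rfl
      rw [h1, sub_zero]
      obtain ⟨q, hq, hx⟩ := hxw
      rw [Finset.sum_eq_single_of_mem q hq]
      · rw [if_pos hx]
      · intro q' hq' hne
        rw [if_neg]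
        intro hx'
        exact hne (hinj q' hq' q hq 0 0 (by rw [← hx', ← hx])).1
    · have h1 : ∑ q ∈ F, (if x = w q then (1 : ℤ) else 0) = 0 := by
        refine Finset.sum_eq_zero fun q hq => ?_
        rw [if_neg]
        intro hx
        exact hxw ⟨q, hq, hx⟩
      rw [h1]
      by_cases hxS : x ∈ S
      · obtain ⟨q, hq, k, hk⟩ := (hmem x).1 hxS
        obtain ⟨j, rfl⟩ : ∃ j, k = j + 1 := by
          rcases k with _ | j
          · exact absurd ⟨q, hq, by rw [hk, zero_mul, add_zero]⟩ hxw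
          · exact ⟨j, rfl⟩
        have h2 : n ≤ x := by
          rw [hk, add_mul, one_mul]
          omega
        have h3 : x - n ∈ S := (hmem _).2 ⟨q, hq, j, by
          rw [hk, add_mul, one_mul]
          omega⟩
        rw [if_pos hxS, if_pos h2, if_pos h3, sub_self]
      · have h2 : ¬ (n ≤ x ∧ x - n ∈ S) := by
          rintro ⟨h2, h3⟩
          obtain ⟨q, hq, k, hk⟩ := (hmem _).1 h3
          exact hxS ((hmem x).2 ⟨q, hq, k + 1, by
            have : x = x - n + n := (Nat.sub_add_cancel h2).symm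
            rw [this, hk]
            ring⟩)
        rw [if_neg hxS]
        have h4 : (if n ≤ x then (if x - n ∈ S then (1 : ℤ) else 0) else 0) = 0 := by
          split_ifs with a b
          · exact absurd ⟨a, b⟩ h2
          · rfl
          · rfl
        rw [h4, sub_zero]
  have hc : (PowerSeries.mk 1 : PowerSeries ℤ) * (1 - PowerSeries.X) = 1 :=
    PowerSeries.mk_one_mul_one_sub_eq_one ℤ
  have hd : (((1 - (1 - X) * G) * (1 - X ^ n) : ℤ[X]) : PowerSeries ℤ) =
      (1 - (1 - PowerSeries.X) * (G : PowerSeries ℤ)) * (1 - PowerSeries.X ^ n) := by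
    simp only [Polynomial.coe_mul, Polynomial.coe_sub, Polynomial.coe_one, Polynomial.coe_X,
      Polynomial.coe_pow]
  have he : (((1 - X) * W : ℤ[X]) : PowerSeries ℤ) = (1 - PowerSeries.X) * (W : PowerSeries ℤ) := by
    simp only [Polynomial.coe_mul, Polynomial.coe_sub, Polynomial.coe_one, Polynomial.coe_X]
  rw [hd, he, ← hb]
  linear_combination (-(1 - PowerSeries.X) * (1 - PowerSeries.X ^ n)) * ha +
    (-(1 - PowerSeries.X ^ n)) * hc

end Pool.Agent.W2helper53.CY
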